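import Mathlib

set_option autoImplicit false

namespace Pool.Agent.Results.MP_245269_an.No

open Filter Topology Set MeasureTheory Asymptotics

section defs

variable {B : Type} [NormedAddCommGroup B] [NormedSpace ℂ B]

/-- the (semi)group generated by a bounded operator `A` -/
noncomputable def U (A : B →L[ℂ] B) (t : ℝ) : B →L[ℂ] B := NormedSpace.exp ((t : ℂ) • A)

/-- the perturbation in the interaction picture -/
noncomputable def Lt (L0 L : B →L[ℂ] B) (t : ℝ) : B →L[ℂ] B :=
  Ring.inverse (U L0 t) * L * U L0 t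

/-- the region `t_k < ... < t_1 < t` -/
def region (k : ℕ) (t : ℝ) : Set (Fin k → ℝ) := {τ | StrictAnti τ ∧ ∀ i, τ i < t}

/-- the norm of `P L_(t_1) ... L_(t_k) P` -/
noncomputable def corr (P L0 L : B →L[ℂ] B) (k : ℕ) (τ : Fin k → ℝ) : ℝ :=
  ‖P * (List.ofFn fun i => Lt L0 L (τ i)).prod * P‖

/-- an operator valued polynomial in `l` -/
noncomputable def poly (m : ℕ) (R : ℕ → B →L[ℂ] B) (l : ℝ) : B →L[ℂ] B :=
  ∑ j ∈ Finset.range m, (l : ℂ) ^ j • R j

/-- the range of `P` -/
abbrev Ran (P : B →L[ℂ] B) : Type := LinearMap.range (P : B →ₗ[ℂ] B)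

/-- `P X P` as an operator on the range of `P` -/
noncomputable def corner (P X : B →L[ℂ] B) : Ran P →L[ℂ] Ran P :=
  P.rangeRestrict ∘L X ∘L (LinearMap.range (P : B →ₗ[ℂ] B)).subtypeL

/-- the projected evolution on the van Hove time scale -/
noncomputable def evol (P L0 L : B →L[ℂ] B) (t l : ℝ) : Ran P →L[ℂ] Ran P :=
  corner P (Ring.inverse (U L0 (t / l ^ 2)) * U (L0 + (l : ℂ) • L) (t / l ^ 2))

/-- the asymptotic formula of order `n` holds for some polynomial `r` and polynomial generator -/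
def Expansion (P L0 L : B →L[ℂ] B) (n : ℕ) : Prop :=
  ∃ (m m' : ℕ) (R G : ℕ → Ran P →L[ℂ] Ran P), ∀ t : ℝ, 0 < t →
    (fun l : ℝ => evol P L0 L t l - U (poly m' G l) t * poly m R l) =O[𝓝[>] 0]
      fun l : ℝ => l ^ (2 * n + 2)

lemma exp_eig [CompleteSpace B] {A : B →L[ℂ] B} {v : B} {c : ℂ} (h : A v = c • v) (t : ℝ) :
    U A t v = Complex.exp (t * c) • v := by
  have hp : ∀ n : ℕ, (((t : ℂ) • A) ^ n) v = (t * c) ^ n • v := by
    intro n
    induction n with
    | zero => simp
    | succ n ih =>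
      rw [pow_succ', pow_succ']
      show ((t : ℂ) • A) ((((t : ℂ) • A) ^ n) v) = _
      rw [ih, map_smul]
      simp only [smul_apply, h, smul_smul]
      congr 1; ring
  have h1 := (NormedSpace.exp_series_hasSum_exp' (𝕂 := ℂ) ((t : ℂ) • A)).mapL
    (ContinuousLinearMap.apply ℂ B v)
  have h2 := (NormedSpace.exp_series_hasSum_exp' (𝕂 := ℂ) ((t : ℂ) * c)).smul_const v
  rw [Complex.exp_eq_exp_ℂ]
  refine h1.unique ?_
  convert h2 using 2 with n
  show (_ : ℂ) • ((((t : ℂ) • A) ^ n) v) = _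
  rw [hp, smul_smul, smul_eq_mul]

lemma inv_U [CompleteSpace B] (A : B →L[ℂ] B) (t : ℝ) : Ring.inverse (U A t) = U A (-t) := by
  letI : NormedAlgebra ℚ (B →L[ℂ] B) := NormedAlgebra.restrictScalars ℚ ℂ _
  unfold U
  rw [Ring.inverse_exp]; simp

lemma unit_U [CompleteSpace B] (A : B →L[ℂ] B) (t : ℝ) : IsUnit (U A t) := by
  letI : NormedAlgebra ℚ (B →L[ℂ] B) := NormedAlgebra.restrictScalars ℚ ℂ _
  exact NormedSpace.isUnit_exp _

lemma cont_app [CompleteSpace B] (m m' : ℕ) (R G : ℕ → B →L[ℂ] B) (t : ℝ) :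
    Continuous fun l : ℝ => U (poly m' G l) t * poly m R l := by
  letI : NormedAlgebra ℚ (B →L[ℂ] B) := NormedAlgebra.restrictScalars ℚ ℂ _
  have h : ∀ (m : ℕ) (R : ℕ → B →L[ℂ] B), Continuous (poly m R) := fun m R => by
    unfold poly; fun_prop
  exact (NormedSpace.exp_continuous.comp ((h m' G).const_smul (t : ℂ))).mul (h m R)

end defs

abbrev V : Type := Fin 3 → ℂ

noncomputable def dg (a : V) : V →L[ℂ] V :=
  ContinuousLinearMap.pi fun i => a i • ContinuousLinearMap.proj i

lemma dg_apply (a x : V) (i : Fin 3) : dg a x i = a i * x i := rfl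

noncomputable def LL : V →L[ℂ] V :=
  ContinuousLinearMap.pi ![ContinuousLinearMap.proj 2, 0, ContinuousLinearMap.proj 1]

lemma LL_apply (x : V) : LL x = ![x 2, 0, x 1] := by
  funext i; fin_cases i <;> rfl

lemma U_dg (a : V) (t : ℝ) : U (dg a) t = dg fun i => Complex.exp (t * a i) := by
  refine ContinuousLinearMap.ext fun x => ?_
  have e : ∀ i : Fin 3, U (dg a) t (Pi.single i 1) = Complex.exp (t * a i) • Pi.single i 1 :=
    fun i => exp_eig (by
      funext j; rw [dg_apply]; by_cases h : j = i <;> simp [h]) t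
  have hx : x = x 0 • (Pi.single 0 1 : V) + x 1 • (Pi.single 1 1 : V) +
      x 2 • (Pi.single 2 1 : V) := by
    funext j; fin_cases j <;> simp
  conv_lhs => rw [hx]
  simp only [map_add, map_smul, e]
  funext j; fin_cases j <;> simp [dg_apply, mul_comm]

noncomputable def PP : V →L[ℂ] V := dg ![1, 1, 0]
noncomputable def L0 : V →L[ℂ] V := dg ![-1, 0, -2]

lemma Lt_apply (t : ℝ) (x : V) :
    Lt L0 LL t x = ![Complex.exp (-t) * x 2, 0, Complex.exp (2 * t) * x 1] := by
  unfold Lt L0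
  rw [inv_U, U_dg, U_dg]
  funext j
  rw [mul_apply_eq_comp, mul_apply_eq_comp, dg_apply, LL_apply]
  fin_cases j
  · simp [dg_apply, ← mul_assoc, ← Complex.exp_add]; left; congr 1; ring
  · simp
  · simp [dg_apply]; left; congr 1; ring

noncomputable def NN : V →L[ℂ] V := LL * LL

lemma two (s t : ℝ) : PP * (Lt L0 LL s * Lt L0 LL t) * PP =
    ((Real.exp (-s + 2 * t) : ℝ) : ℂ) • NN := by
  refine ContinuousLinearMap.ext fun x => funext fun j => ?_
  show PP (Lt L0 LL s (Lt L0 LL t (PP x))) j = _ * LL (LL x) j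
  rw [Lt_apply, Lt_apply, LL_apply, LL_apply]
  fin_cases j <;> simp [PP, dg_apply, Complex.exp_add, mul_assoc]

lemma evol_val (T l : ℝ) :
    (U L0 (-T) (U (L0 + (l : ℂ) • LL) T ![0, 1, 0])) 0 = ((l ^ 2 * (Real.cosh T - 1) : ℝ) : ℂ) := by
  have e1 : (L0 + (l : ℂ) • LL) ![1, 0, 0] = (-1 : ℂ) • ![1, 0, 0] := by
    funext j; fin_cases j <;> simp [L0, dg_apply, LL_apply]
  have e2 : (L0 + (l : ℂ) • LL) ![-(l : ℂ), 0, 1] = (-2 : ℂ) • ![-(l : ℂ), 0, 1] := by
    funext j; fin_cases j <;> simp [L0, dg_apply, LL_apply]; ring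
  have e3 : (L0 + (l : ℂ) • LL) ![(l : ℂ) ^ 2 / 2, 1, (l : ℂ) / 2] =
      (0 : ℂ) • ![(l : ℂ) ^ 2 / 2, 1, (l : ℂ) / 2] := by
    funext j; fin_cases j <;> simp [L0, dg_apply, LL_apply] <;> ring
  have d : (![0, 1, 0] : V) = (![(l : ℂ) ^ 2 / 2, 1, (l : ℂ) / 2] : V) -
      ((l : ℂ) / 2) • ![-(l : ℂ), 0, 1] -
      ((l : ℂ) ^ 2) • ![1, 0, 0] := by
    funext j; fin_cases j <;> simp; ring
  rw [d, (U (L0 + (l : ℂ) • LL) T).map_sub, (U (L0 + (l : ℂ) • LL) T).map_sub,
    (U (L0 + (l : ℂ) • LL) T).map_smul, (U (L0 + (l : ℂ) • LL) T).map_smul, exp_eig e1, exp_eig e2,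
    exp_eig e3]
  unfold L0
  rw [U_dg, dg_apply]
  simp [Complex.cosh]
  have h1 : Complex.exp T * Complex.exp (-T) = 1 := by rw [← Complex.exp_add]; simp
  have h2 : Complex.exp (-(T * 2)) = Complex.exp (-T) * Complex.exp (-T) := by
    rw [← Complex.exp_add]; congr 1; ring
  rw [h2]
  linear_combination (l ^ 2 / 2 * Complex.exp (-T) - l ^ 2) * h1

lemma int2 (t : ℝ) : IntegrableOn (corr PP L0 LL 2) (region 2 t) volume := by
  have e : corr PP L0 LL 2 = fun τ => Real.exp (-τ 0 + 2 * τ 1) * ‖NN‖ := by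
    funext τ
    unfold corr
    simp only [List.ofFn_succ, List.ofFn_zero, List.prod_cons, List.prod_nil, mul_one]
    rw [two, norm_smul, Complex.norm_real, Real.norm_eq_abs, abs_of_pos (Real.exp_pos _)]
    rfl
  have hm : MeasurableSet (region 2 t) := by
    have : region 2 t = {τ | τ 1 < τ 0} ∩ ({τ | τ 0 < t} ∩ {τ | τ 1 < t}) := by
      ext τ
      simp only [region, mem_ofPred_eq, mem_inter_iff, Fin.forall_fin_two, Fin.strictAnti_iff_succ_lt,
        Fin.forall_fin_one]
      rfl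
    rw [this]
    measurability
  have h1 : Integrable (fun x : ℝ => (Iic t).indicator (fun x => Real.exp (1 / 2 * x)) x) :=
    (integrable_indicator_iff measurableSet_Iic).2 (integrableOn_exp_mul_Iic (by norm_num) t)
  have h2 : Integrable (fun τ : Fin 2 → ℝ =>
      ∏ i, (Iic t).indicator (fun x => Real.exp (1 / 2 * x)) (τ i)) volume :=
    Integrable.fintype_prod (f := fun _ x => (Iic t).indicator (fun x => Real.exp (1 / 2 * x)) x)
      fun _ => h1
  rw [e]
  refine Integrable.mul_const ?_ _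
  refine h2.integrableOn.mono' (by fun_prop) ((ae_restrict_iff' hm).2 (ae_of_all _ ?_))
  rintro τ ⟨a, b⟩
  have c : τ 1 < τ 0 := a (by decide)
  rw [Fin.prod_univ_two, indicator_of_mem (mem_Iic.2 (b 0).le), indicator_of_mem (mem_Iic.2 (b 1).le),
    ← Real.exp_add, Real.norm_eq_abs, abs_of_pos (Real.exp_pos _)]
  exact Real.exp_le_exp.2 (by linarith)

theorem result : ∃ (B : Type) (_ : NormedAddCommGroup B) (_ : NormedSpace ℂ B)
    (P L0 L : B →L[ℂ] B), FiniteDimensional ℂ B ∧ P * P = P ∧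
    (∀ t, P * U L0 t = U L0 t * P) ∧ P * L * P = 0 ∧ (∀ t, IsUnit (U L0 t)) ∧
    (∀ t, 0 ≤ t → ‖U L0 t‖ ≤ 1) ∧
    (∀ k, 1 ≤ k → ∀ t, IntegrableOn (corr P L0 L k) (region k t) volume) ∧
    ∀ n, ¬ Expansion P L0 L n := by
  refine ⟨V, inferInstance, inferInstance, PP, L0, LL, inferInstance, ?_, ?_, ?_, unit_U _, ?_,
    ?_, ?_⟩
  · refine ContinuousLinearMap.ext fun x => funext fun j => ?_
    show PP (PP x) j = _
    fin_cases j <;> simp [PP, dg_apply]
  · intro t
    refine ContinuousLinearMap.ext fun x => funext fun j => ?_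
    show PP (U L0 t x) j = U L0 t (PP x) j
    simp only [L0, PP, U_dg, dg_apply]; ring
  · refine ContinuousLinearMap.ext fun x => funext fun j => ?_
    show PP (LL (PP x)) j = 0
    fin_cases j <;> simp [PP, dg_apply, LL_apply]
  · intro t ht
    refine ContinuousLinearMap.opNorm_le_bound _ zero_le_one fun x => ?_
    rw [one_mul]
    refine (pi_norm_le_iff_of_nonneg (norm_nonneg _)).2 fun j => ?_
    rw [L0, U_dg, dg_apply, norm_mul]
    refine (mul_le_of_le_one_left (norm_nonneg _) ?_).trans (norm_le_pi_norm x j)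
    rw [Complex.norm_exp, Real.exp_le_one_iff]
    fin_cases j <;> simp <;> linarith
  · intro k hk t
    match k, hk with
    | 1, _ =>
      have : corr PP L0 LL 1 = fun _ => 0 := by
        funext τ
        unfold corr
        simp only [List.ofFn_succ, List.ofFn_zero, List.prod_cons, List.prod_nil, mul_one]
        rw [norm_eq_zero]
        refine ContinuousLinearMap.ext fun x => funext fun j => ?_
        show PP (Lt L0 LL _ (PP x)) j = 0
        rw [Lt_apply]
        fin_cases j <;> simp [PP, dg_apply]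
      rw [this]; exact integrableOn_zero
    | 2, _ => exact int2 t
    | k + 3, _ =>
      have : corr PP L0 LL (k + 3) = fun _ => 0 := by
        funext τ
        unfold corr
        simp only [List.ofFn_succ, List.prod_cons]
        rw [norm_eq_zero]
        refine ContinuousLinearMap.ext fun x => funext fun j => ?_
        show PP (Lt L0 LL _ (Lt L0 LL _ (Lt L0 LL _ _))) j = 0
        rw [Lt_apply, Lt_apply, Lt_apply]
        fin_cases j <;> simp [PP, dg_apply]
      rw [this]; exact integrableOn_zero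
  · rintro n ⟨m, m', R, G, h⟩
    haveI : CompleteSpace (Ran PP) := FiniteDimensional.complete ℂ _
    have h1 := h 1 one_pos
    have t0 : Tendsto (fun l : ℝ => l ^ (2 * n + 2)) (𝓝[>] 0) (𝓝 0) := by
      have : Tendsto (fun l : ℝ => l ^ (2 * n + 2)) (𝓝 0) (𝓝 (0 ^ (2 * n + 2))) :=
        (continuous_pow _).tendsto 0
      rw [zero_pow (by omega)] at this
      exact this.mono_left nhdsWithin_le_nhds
    have h2 := (h1.trans_tendsto t0).add
      (((cont_app m m' R G 1).tendsto 0).mono_left nhdsWithin_le_nhds)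
    simp only [sub_add_cancel] at h2
    let v : Ran PP := ⟨![0, 1, 0], ![0, 1, 0], by
      funext j; fin_cases j <;> simp [PP, dg_apply]⟩
    let f : (Ran PP →L[ℂ] Ran PP) → ℝ := fun X => ((X v).1 0).re
    have hf : Continuous f := Complex.continuous_re.comp ((continuous_apply 0).comp
      (continuous_subtype_val.comp (ContinuousLinearMap.apply ℂ (Ran PP) v).continuous))
    have h3 := (hf.tendsto _).comp h2
    have e : ∀ l : ℝ, f (evol PP L0 LL 1 l) = l ^ 2 * (Real.cosh (1 / l ^ 2) - 1) := by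
      intro l
      have : (evol PP L0 LL 1 l v).1 0 =
          PP (U L0 (-(1 / l ^ 2)) (U (L0 + (l : ℂ) • LL) (1 / l ^ 2) ![0, 1, 0])) 0 := by
        rw [← inv_U]; rfl
      simp only [f]
      rw [this, PP, dg_apply, evol_val]
      simp only [Matrix.cons_val_zero, one_mul, Complex.ofReal_re]
    have h4 : Tendsto (fun l : ℝ => f (evol PP L0 LL 1 l)) (𝓝[>] 0) atTop := by
      have a : Tendsto (fun l : ℝ => 1 / 4 * l⁻¹ ^ 2 + -1) (𝓝[>] 0) atTop :=
        tendsto_atTop_add_const_right _ _ (Tendsto.const_mul_atTop (by norm_num)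
          ((tendsto_pow_atTop two_ne_zero).comp tendsto_inv_nhdsGT_zero))
      refine tendsto_atTop_mono' _ ?_ a
      filter_upwards [Ioo_mem_nhdsGT one_pos] with l hl
      rw [e, Real.cosh_eq]
      have p : 0 < l ^ 2 := pow_pos hl.1 2
      have q : l ^ 2 ≤ 1 := pow_le_one₀ hl.1.le hl.2.le
      have r := Real.quadratic_le_exp_of_nonneg (x := 1 / l ^ 2) (by positivity)
      have s := Real.exp_pos (-(1 / l ^ 2))
      have u : l ^ 2 * ((1 / l ^ 2) ^ 2 / 4) = 1 / 4 * l⁻¹ ^ 2 := by field_simp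
      have w : 0 < 1 / l ^ 2 := by positivity
      nlinarith [mul_le_mul_of_nonneg_left (show (1 / l ^ 2) ^ 2 / 4 ≤
        (Real.exp (1 / l ^ 2) + Real.exp (-(1 / l ^ 2))) / 2 by linarith) p.le]
    exact not_tendsto_atTop_of_tendsto_nhds h3 h4

end Pool.Agent.Results.MP_245269_an.No
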